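import Mathlib
import Pool.Agent.H26.MST5

namespace Pool.Agent.Results.MP_9afe8f_co.AreaExponent

open Real SimpleGraph Pool.Agent.H26.MST

/-- Euclidean distance of two grid points. -/
noncomputable def edist2 (x y : ℤ × ℤ) : ℝ :=
  √(((x.1 : ℝ) - y.1) ^ 2 + ((x.2 : ℝ) - y.2) ^ 2)

/-- Euclidean length of an unordered pair of vertices under the placement `p`. -/
noncomputable def len {n : ℕ} (p : Fin n → ℤ × ℤ) (e : Sym2 (Fin n)) : ℝ :=
  Sym2.lift ⟨fun x y => edist2 (p x) (p y), fun x y => by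
    simp only [edist2]; congr 1; ring⟩ e

open Classical in
/-- Total Euclidean length of the edges of `G` under the placement `p`. -/
noncomputable def weight {n : ℕ} (p : Fin n → ℤ × ℤ) (G : SimpleGraph (Fin n)) : ℝ :=
  ∑ e ∈ Finset.univ.filter (fun e : Sym2 (Fin n) => e ∈ G.edgeSet), len p e

/-- `p` is a minimum weight grid drawing of size `W × H` of the tree `T`: an injective placement
in `{1..W} × {1..H}` such that no spanning tree of the complete graph on the placed points has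
smaller total Euclidean length than `T`. -/
def IsMinWeightGridDrawing {n : ℕ} (T : SimpleGraph (Fin n)) (W H : ℕ) (p : Fin n → ℤ × ℤ) :
    Prop :=
  Function.Injective p ∧
  (∀ v, 1 ≤ (p v).1 ∧ (p v).1 ≤ W ∧ 1 ≤ (p v).2 ∧ (p v).2 ≤ H) ∧
  ∀ T' : SimpleGraph (Fin n), T'.IsTree → weight p T ≤ weight p T'

noncomputable def pos {n : ℕ} (p : Fin n → ℤ × ℤ) (v : Fin n) : ℂ := ⟨(p v).1, (p v).2⟩

lemma norm_pos_sub {n : ℕ} (p : Fin n → ℤ × ℤ) (x y : Fin n) :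
    ‖pos p x - pos p y‖ = edist2 (p x) (p y) := by
  rw [Complex.norm_eq_sqrt_sq_add_sq]; simp [pos, edist2]

lemma cut {n : ℕ} {T : SimpleGraph (Fin n)} (hT : T.IsTree) {p : Fin n → ℤ × ℤ}
    (hm : ∀ T' : SimpleGraph (Fin n), T'.IsTree → weight p T ≤ weight p T')
    {a b x y : Fin n} (hab : T.Adj a b)
    (hx : (T.deleteEdges {s(a, b)}).Reachable x a) (hy : (T.deleteEdges {s(a, b)}).Reachable y b)
    (hne : s(x, y) ≠ s(a, b)) : ‖pos p a - pos p b‖ ≤ ‖pos p x - pos p y‖ := by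
  classical
  obtain ⟨T', hT', hnot, hE⟩ := exchange hT hab hx hy hne
  have h := hm T' hT'
  unfold weight at h
  have e : Finset.univ.filter (fun e : Sym2 (Fin n) => e ∈ T'.edgeSet) =
      insert s(x, y) ((Finset.univ.filter (fun e : Sym2 (Fin n) => e ∈ T.edgeSet)).erase s(a, b)) := by
    ext z; simp [hE, and_comm]
  have hmem : s(a, b) ∈ Finset.univ.filter (fun e : Sym2 (Fin n) => e ∈ T.edgeSet) := by
    simpa using hab
  rw [e, Finset.sum_insert (by simp [hnot]), ← Finset.add_sum_erase _ _ hmem] at h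
  rw [norm_pos_sub, norm_pos_sub]
  have h' : len p s(a, b) ≤ len p s(x, y) := by linarith
  simpa [len] using h'

lemma loc {n : ℕ} {T : SimpleGraph (Fin n)} (hT : T.IsTree) {p : Fin n → ℤ × ℤ}
    (hp : Function.Injective p)
    (hm : ∀ T' : SimpleGraph (Fin n), T'.IsTree → weight p T ≤ weight p T') :
    Loc T (pos p) := by
  have adj : ∀ {a b u v : Fin n}, T.Adj u v → s(u, v) ≠ s(a, b) →
      (T.deleteEdges {s(a, b)}).Reachable u v := fun h e =>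
    Adj.reachable (by rw [deleteEdges_adj]; exact ⟨h, by simpa using e⟩)
  refine ⟨?_, ?_, ?_, ?_⟩
  · intro x y h
    have h1 := congrArg Complex.re h
    have h2 := congrArg Complex.im h
    simp only [pos, Int.cast_inj] at h1 h2
    exact hp (Prod.ext h1 h2)
  · intro x0 x1 x2 h01 h12 h02
    have n1 := h01.ne
    have n2 := h12.ne
    refine cut hT hm h01 (Reachable.refl _) (adj h12.symm ?_) ?_ <;>
      · intro e; rcases Sym2.eq_iff.1 e with ⟨u, v⟩ | ⟨u, v⟩ <;> simp_all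
  · intro x0 x1 x2 x3 h01 h12 h23 h02 h13
    have n1 := h01.ne
    have n2 := h12.ne
    have n3 := h23.ne
    refine cut hT hm h01 (Reachable.refl _) ((adj h23.symm ?_).trans (adj h12.symm ?_)) ?_ <;>
      · intro e; rcases Sym2.eq_iff.1 e with ⟨u, v⟩ | ⟨u, v⟩ <;> simp_all
  · intro x0 x1 x2 x3 h01 h12 h23 h02 h13
    have n1 := h01.ne
    have n2 := h12.ne
    have n3 := h23.ne
    refine cut hT hm h12 (adj h01 ?_) (adj h23.symm ?_) ?_ <;>
      · intro e; rcases Sym2.eq_iff.1 e with ⟨u, v⟩ | ⟨u, v⟩ <;> simp_all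

lemma one_le {x y : ℤ × ℤ} (h : x ≠ y) : 1 ≤ edist2 x y := by
  apply le_sqrt_of_sq_le
  have : (1 : ℤ) ≤ (x.1 - y.1) ^ 2 + (x.2 - y.2) ^ 2 := by
    by_cases h1 : x.1 = y.1
    · have h2 : x.2 - y.2 ≠ 0 := fun e => h (Prod.ext h1 (by omega))
      have := sq_pos_of_ne_zero h2
      nlinarith [sq_nonneg (x.1 - y.1)]
    · have := sq_pos_of_ne_zero (sub_ne_zero.2 h1)
      nlinarith [sq_nonneg (x.2 - y.2)]
  rw [one_pow]
  exact_mod_cast this

theorem lower : ∃ c : ℝ, 0 < c ∧ ∃ N : ℕ, ∀ n ≥ N, ∃ T : SimpleGraph (Fin n),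
    T.IsTree ∧ (∀ v, (T.neighborSet v).ncard ≤ 5) ∧
    ∀ (W H : ℕ) (p : Fin n → ℤ × ℤ), IsMinWeightGridDrawing T W H p →
      (2 : ℝ) ^ (c * (n : ℝ) ^ 2) ≤ (W : ℝ) * H := by
  have hD : DD = 3145736 := by decide
  have hD0 : (0 : ℝ) < DD := by rw [hD]; norm_num
  have hD1 : 0 < DD := by omega
  refine ⟨1 / (224 * (DD : ℝ) ^ 2), by positivity, 16 * DD, fun n hn => ?_⟩
  refine ⟨tree AA n, tree_isTree AA n (by omega), tree_deg (by decide), ?_⟩
  rintro W H p ⟨hp, hb, hm⟩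
  have L := loc (tree_isTree AA n (by omega)) hp hm
  have hW : (1 : ℝ) ≤ W := by
    have := hb ⟨0, by omega⟩
    exact_mod_cast this.1.trans this.2.1
  have hH : (1 : ℝ) ≤ H := by
    have := hb ⟨0, by omega⟩
    exact_mod_cast this.2.2.1.trans this.2.2.2
  have hM : ∀ x y, ‖pos p x - pos p y‖ ≤ 2 * ((W : ℝ) * H) := by
    intro x y
    rw [norm_pos_sub]
    obtain ⟨a1, a2, a3, a4⟩ := hb x
    obtain ⟨b1, b2, b3, b4⟩ := hb y
    have a1' : (1 : ℝ) ≤ (p x).1 := by exact_mod_cast a1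
    have a2' : ((p x).1 : ℝ) ≤ W := by exact_mod_cast a2
    have a3' : (1 : ℝ) ≤ (p x).2 := by exact_mod_cast a3
    have a4' : ((p x).2 : ℝ) ≤ H := by exact_mod_cast a4
    have b1' : (1 : ℝ) ≤ (p y).1 := by exact_mod_cast b1
    have b2' : ((p y).1 : ℝ) ≤ W := by exact_mod_cast b2
    have b3' : (1 : ℝ) ≤ (p y).2 := by exact_mod_cast b3
    have b4' : ((p y).2 : ℝ) ≤ H := by exact_mod_cast b4
    have e1 : (((p x).1 : ℝ) - (p y).1) ^ 2 ≤ (W : ℝ) ^ 2 := sq_le_sq' (by linarith) (by linarith)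
    have e2 : (((p x).2 : ℝ) - (p y).2) ^ 2 ≤ (H : ℝ) ^ 2 := sq_le_sq' (by linarith) (by linarith)
    have e3 : (W : ℝ) + H ≤ 2 * (W * H) := by nlinarith
    refine le_trans ?_ e3
    apply sqrt_le_iff.2 ⟨by linarith, by nlinarith⟩
  set k := n / DD with hk
  have hk16 : 16 ≤ k := (Nat.le_div_iff_mul_le hD1).2 hn
  have hk1 : k * DD ≤ n := Nat.div_mul_le_self n DD
  have hk2 : n < (k + 1) * DD := by
    have := Nat.lt_div_mul_add (a := n) hD1
    rw [← hk] at this; nlinarith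
  obtain ⟨m, hmk⟩ : ∃ m, k = m + 2 := ⟨k - 2, by omega⟩
  obtain ⟨v, c, hvc, -, -, -, -, hl⟩ := phase2 L hM m (by rw [← hmk]; exact hk1)
  have h1 : 1 ≤ ‖pos p c - pos p v‖ := by
    rw [norm_pos_sub]; exact one_le (fun h => hvc.ne (hp h).symm)
  have htri := tri_eq m
  have hm14 : (14 : ℝ) ≤ m := by exact_mod_cast (by omega : 14 ≤ m)
  have hn' : (n : ℝ) ≤ (m + 3) * DD := by
    have : n ≤ (m + 3) * DD := by rw [hmk] at hk2; exact hk2.le
    exact_mod_cast this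
  have hexp : 1 / (224 * (DD : ℝ) ^ 2) * (n : ℝ) ^ 2 + 1 ≤ (tri m : ℝ) / 7 := by
    have a : (n : ℝ) ^ 2 ≤ ((m + 3) * DD) ^ 2 := pow_le_pow_left₀ (by positivity) hn' 2
    have b : 1 / (224 * (DD : ℝ) ^ 2) * (n : ℝ) ^ 2 ≤ (m + 3) ^ 2 / 224 := by
      rw [one_div_mul_eq_div, div_le_div_iff₀ (by positivity) (by positivity)]
      nlinarith
    nlinarith
  have hpow : (2 : ℝ) ^ ((tri m : ℝ) / 7) ≤ (10 / 9) ^ tri m := by
    have a : (2 : ℝ) ≤ (10 / 9) ^ (7 : ℝ) := by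
      rw [show (7 : ℝ) = ((7 : ℕ) : ℝ) by norm_num, rpow_natCast]; norm_num
    calc (2 : ℝ) ^ ((tri m : ℝ) / 7) ≤ ((10 / 9) ^ (7 : ℝ)) ^ ((tri m : ℝ) / 7) :=
          rpow_le_rpow (by norm_num) a (by positivity)
      _ = (10 / 9) ^ tri m := by
          rw [← rpow_mul (by norm_num), ← rpow_natCast]; congr 1; ring
  have h2 := rpow_le_rpow_of_exponent_le (x := 2) (by norm_num) hexp
  rw [rpow_add (by norm_num), rpow_one] at h2
  have h3 : (10 / 9 : ℝ) ^ tri m * 0.9 ^ tri m = 1 := by rw [← mul_pow]; norm_num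
  have h4 : (0 : ℝ) < (10 / 9) ^ tri m := by positivity
  have h5 := mul_le_mul_of_nonneg_left (h1.trans hl) h4.le
  have h6 : (10 / 9 : ℝ) ^ tri m * (2 * ((W : ℝ) * H) * 0.9 ^ tri m) = 2 * ((W : ℝ) * H) := by
    linear_combination (2 * ((W : ℝ) * H)) * h3
  linarith

theorem upper (n : ℕ) (T : SimpleGraph (Fin n)) (hT : T.IsTree)
    (hd : ∀ v, (T.neighborSet v).ncard ≤ 5) :
    ∃ (W H : ℕ) (p : Fin n → ℤ × ℤ), IsMinWeightGridDrawing T W H p ∧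
      (W : ℝ) * H ≤ (2 : ℝ) ^ (3 / 2 * (n : ℝ) ^ 2 + 3 * n + 36) := by
  obtain ⟨r, pa, dep, p, R, hp, hb, hc⟩ := grid_drawing hT hd
  rw [Fintype.card_fin] at hb
  refine ⟨_, _, p, ⟨hp, hb, fun T' hT' => ?_⟩, ?_⟩
  · have := minimal hT R (len p) (fun b x y h1 h2 h3 => by
      have := hc b x y h1 h2 h3
      change ‖pos p b - pos p (pa b)‖ ≤ ‖pos p x - pos p y‖ at this
      rw [norm_pos_sub, norm_pos_sub] at this
      simpa [len] using this) T' hT'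
    unfold weight
    convert this
  · have e : (((64 ^ (tri (n / 2 + 1) + 3) : ℕ) : ℝ)) * ((64 ^ (tri (n / 2 + 1) + 3) : ℕ) : ℝ) =
        (2 : ℝ) ^ ((12 * (tri (n / 2 + 1) + 3) : ℕ) : ℝ) := by
      rw [rpow_natCast, pow_mul]; push_cast; rw [← mul_pow]; norm_num
    rw [e]
    apply rpow_le_rpow_of_exponent_le (by norm_num)
    have h := tri_eq (n / 2 + 1)
    have h2 : ((n / 2 : ℕ) : ℝ) ≤ n / 2 := Nat.cast_div_le
    have h3 : (0 : ℝ) ≤ ((n / 2 : ℕ) : ℝ) := Nat.cast_nonneg _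
    push_cast at h ⊢
    nlinarith

theorem result :
    (∀ c : ℝ, 0 < c → ∃ N : ℕ, ∀ n ≥ N, ∀ T : SimpleGraph (Fin n),
      T.IsTree → (∀ v, (T.neighborSet v).ncard ≤ 5) →
      ∃ (W H : ℕ) (p : Fin n → ℤ × ℤ), IsMinWeightGridDrawing T W H p ∧
        (W : ℝ) * H ≤ (2 : ℝ) ^ (3 / 2 * (n : ℝ) ^ 2 + 3 * n + 36) ∧
        (W : ℝ) * H < c * ((2 : ℝ) ^ (n ^ 2) * (2 : ℝ) ^ (n ^ 2))) ∧
    (∃ c : ℝ, 0 < c ∧ ∃ N : ℕ, ∀ n ≥ N, ∃ T : SimpleGraph (Fin n),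
      T.IsTree ∧ (∀ v, (T.neighborSet v).ncard ≤ 5) ∧
      ∀ (W H : ℕ) (p : Fin n → ℤ × ℤ), IsMinWeightGridDrawing T W H p →
        (2 : ℝ) ^ (c * (n : ℝ) ^ 2) ≤ (W : ℝ) * H) := by
  refine ⟨fun c hc => ?_, lower⟩
  obtain ⟨m, hm⟩ := exists_pow_lt_of_lt_one hc (by norm_num : (1 / 2 : ℝ) < 1)
  refine ⟨m + 20, fun n hn T hT hd => ?_⟩
  obtain ⟨W, H, p, h1, h2⟩ := upper n T hT hd
  refine ⟨W, H, p, h1, h2, h2.trans_lt ?_⟩
  have hn' : (m : ℝ) + 20 ≤ n := by exact_mod_cast hn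
  have hm0 : (0 : ℝ) ≤ m := Nat.cast_nonneg _
  have a : (2 : ℝ) ^ (3 / 2 * (n : ℝ) ^ 2 + 3 * n + 36) ≤ (2 : ℝ) ^ (-(m : ℝ) + (n ^ 2 + n ^ 2)) :=
    rpow_le_rpow_of_exponent_le (by norm_num) (by nlinarith)
  have b : (2 : ℝ) ^ (-(m : ℝ) + (n ^ 2 + n ^ 2)) =
      (1 / 2) ^ m * ((2 : ℝ) ^ (n ^ 2) * (2 : ℝ) ^ (n ^ 2)) := by
    rw [rpow_add (by norm_num), rpow_add (by norm_num), rpow_neg (by norm_num), rpow_natCast,
      ← Nat.cast_pow, rpow_natCast, one_div, inv_pow]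
  rw [b] at a
  exact a.trans_lt (mul_lt_mul_of_pos_right hm (by positivity))

end Pool.Agent.Results.MP_9afe8f_co.AreaExponent
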